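import Pool.Agent.AEC.StmtsB
import Pool.Agent.AEC.StmtsZ

/-!
# Squad AEC, row ZCF: Theorem C in the form of the question
-/

set_option autoImplicit false

open FirstOrder FirstOrder.Language Cardinal Set

universe u

namespace Pool.Agent.AEC.H49

open Pool.Agent.AEC Pool.Agent.AEC.AEC

/-- ZCF -/
theorem zcf (hnf : HnfStmt.{u}) (tpa : TpaStmt.{u}) (tpb : TpbStmt.{u}) (emx : EmxStmt.{u})
    (zca : ZcaStmt.{u}) : ZcfStmt.{u} := by
  intro κ
  obtain ⟨μ, hμ⟩ := hnf κ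
  refine ⟨μ, fun L K hc M hM => ?_⟩
  have hU := (hμ L K).1 hc
  have hA : K.ArbLarge := by
    intro m
    obtain ⟨l, hl, ⟨M', hM'⟩, -⟩ := hU m
    exact ⟨M', by rw [hM']; exact hl⟩
  obtain ⟨p, hp⟩ := tpa L κ K hA
  obtain ⟨E⟩ := emx L κ K (tpb L κ K p hp)
  exact zca L κ K E hU M hM

end Pool.Agent.AEC.H49
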