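import Pool.Agent.AEC.StmtsZ

/-!
# Squad AEC, row ZCO: amalgamation in some cardinal from categoricity in an interval
-/

set_option autoImplicit false

open FirstOrder FirstOrder.Language Cardinal Set

universe u

namespace Pool.Agent.AEC.H49

open Pool.Agent.AEC Pool.Agent.AEC.AEC

/-- ZCO -/
theorem zco (zla : ZlaStmt.{u}) : ZcoStmt.{u} := by
  intro L κ K χ hκ hcat
  have hχ : χ ≤ 2 ^ χ := (Cardinal.cantor χ).le
  obtain ⟨M, hM⟩ := (hcat χ le_rfl hχ).1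
  obtain ⟨N, e, hN, hb, -⟩ := zla L κ K M (2 ^ χ) (by rw [hM]; exact hκ) (by rw [hM])
    (by rw [hM]; exact Cardinal.cantor _) (hcat _ hχ le_rfl)
  have hMN : #M.α ≤ #N.α := Cardinal.mk_le_of_injective e.injective
  rw [hM] at hMN
  refine ⟨#N.α, hMN, hN, fun N' hN' => ?_⟩
  obtain ⟨i⟩ := (hcat _ hMN hN.le).2 N' N hN' rfl
  intro B₁ B₂ f₁ f₂ h₁ h₂
  obtain ⟨Z, w₁, w₂, hw⟩ := hb B₁ B₂ (f₁.comp (Hom.ofEquiv i.symm))
    (f₂.comp (Hom.ofEquiv i.symm)) (h₁.trans hN') (h₂.trans hN')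
  refine ⟨Z, w₁, w₂, fun x => ?_⟩
  have h := hw (i x)
  rw [Hom.comp_apply, Hom.comp_apply, Hom.ofEquiv_apply, i.symm_apply_apply] at h
  exact h

end Pool.Agent.AEC.H49
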